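import Pool.Agent.MWHQ.Stmts

/-!
# JHB: a light letter of degree two and a letter which is heavy in all blocks except one
-/

namespace Pool.Agent.MWHQ.H67

open Pool.Agent.Helper14_MV Pool.Agent.Helper2_MV Pool.Agent.MVO Pool.Agent.MWL Pool.Agent.MWS
  Pool.Agent.MWH Pool.Agent.MWHQ

theorem jhb (h1 : MWHP.JpcStmt) (h2 : MWHP.AboStmt) (h3 : J2tStmt) : JhbStmt := by
  intro n β hβ k a b i p u v hV hL hip hb
  have huv := hL.uv
  have hpi : p ≠ i := by rcases hip with ⟨h, h'⟩ | ⟨h, h'⟩ <;> omega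
  have hap : a p ≠ 0 := by
    rcases hip with ⟨_, h'⟩ | ⟨_, h'⟩
    · rw [h', hL.av]; exact one_ne_zero
    · rw [h', hL.au]; exact one_ne_zero
  have hbi : 2 ≤ b i := hb i hV.ik (fun h => hpi h.symm)
  have hVs : ∀ s : Stt, Vs a b i s := fun s _ => Or.inr hbi
  have c1 : ∀ s s' : Stt, ∀ θ : FIC, β ≤ θ → NC2 θ → Has n (FC.ofFIC θ) (Bit.J 2) →
      Tr θ k a b i s s' := by
    intro s s' θ hθ _ hJ
    exact h3 n β θ hβ hθ hJ k a b i u v hV hL (Or.inr hbi) s s' (hVs s) (hVs s')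
  have c2 : ∀ s s' : Stt, ∀ θ : FIC, β ≤ θ → NC2 θ → ∀ j ≤ k, ¬ (j ≠ p) →
      Ab n (FC.ofFIC θ) k b j → Tr θ k a b i s s' := by
    intro s s' θ hθ _ j hj hF hA
    have hjp : j = p := not_not.mp hF
    refine h2 n β θ hβ.toBaseH hθ k a b i hV j hj ?_ (Or.inr ⟨?_, hA⟩) s s' (hVs s) (hVs s')
    · rw [hjp]; exact hpi
    · rw [hjp]; exact hap
  constructor
  · exact h1 n β hβ.toBaseH k a b i u v (fun j => j ≠ p) hV hL hb Stt.xy Stt.ov
      (Or.inr (Or.inl ⟨fun h => hpi h.symm, rfl, rfl⟩)) (c1 _ _) (c2 _ _)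
  · exact h1 n β hβ.toBaseH k a b i u v (fun j => j ≠ p) hV hL hb Stt.yx Stt.ov
      (Or.inr (Or.inr ⟨fun h => hpi h.symm, rfl, rfl⟩)) (c1 _ _) (c2 _ _)

end Pool.Agent.MWHQ.H67
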